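import Pool.Agent.H92.ND.TargetsB

/-!
# MP_70ba79_ag, board `ndc_modules`, row HVN
-/

set_option autoImplicit false

namespace Pool.Agent.H73.ND

open MvPolynomial SC Pool.Agent.H27.LV Pool.Agent.H84.SM Pool.Agent.H84.ND Pool.Agent.H92.ND

/-- a linear form which vanishes at `t` and not at `s` -/
theorem hvn_lin {k : Type} [Field k] (s t : Fin 3 → k) (h : cr s t ≠ 0) :
    ∃ l : A3 k, l.IsHomogeneous 1 ∧ eval s l ≠ 0 ∧ eval t l = 0 := by
  obtain ⟨c, hc⟩ := Function.ne_iff.mp h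
  refine ⟨C (t (c + 2)) * X (c + 1) - C (t (c + 1)) * X (c + 2), ?_, ?_, ?_⟩
  · have h1 : (C (t (c + 2)) * X (c + 1) : A3 k).IsHomogeneous 1 := by
      have := (isHomogeneous_C (Fin 3) (t (c + 2))).mul (isHomogeneous_X k (c + 1))
      rwa [zero_add] at this
    have h2 : (C (t (c + 1)) * X (c + 2) : A3 k).IsHomogeneous 1 := by
      have := (isHomogeneous_C (Fin 3) (t (c + 1))).mul (isHomogeneous_X k (c + 2))
      rwa [zero_add] at this
    exact h1.sub h2
  · rw [map_sub, map_mul, map_mul, eval_C, eval_C, eval_X, eval_X]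
    intro h3
    apply hc
    show s (c + 1) * t (c + 2) - s (c + 2) * t (c + 1) = 0
    rw [← h3]; ring
  · rw [map_sub, map_mul, map_mul, eval_C, eval_C, eval_X, eval_X]; ring

theorem pf_HVN : Pool.Agent.H92.ND.T_HVN := by
  classical
  intro k _ T hT s hs
  have h1 : ∀ t : Fin 3 → k, ∃ l : A3 k, t ∈ T.erase s →
      (l.IsHomogeneous 1 ∧ eval s l ≠ 0 ∧ eval t l = 0) := by
    intro t
    by_cases ht : t ∈ T.erase s
    · obtain ⟨h2, h3⟩ := Finset.mem_erase.mp ht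
      obtain ⟨l, hl⟩ := hvn_lin s t (hT s hs t h3 (Ne.symm h2))
      exact ⟨l, fun _ => hl⟩
    · exact ⟨0, fun h => absurd h ht⟩
  choose l hl using h1
  refine ⟨∑ t ∈ T.erase s, 1, ∏ t ∈ T.erase s, l t, ?_, ?_, ?_⟩
  · exact IsHomogeneous.prod _ _ _ (fun t ht => (hl t ht).1)
  · rw [map_prod]
    exact Finset.prod_ne_zero_iff.mpr (fun t ht => (hl t ht).2.1)
  · intro s' hs' hne
    rw [map_prod]
    have h4 : s' ∈ T.erase s := Finset.mem_erase.mpr ⟨hne, hs'⟩
    exact Finset.prod_eq_zero h4 (hl s' h4).2.2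

end Pool.Agent.H73.ND
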