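import Pool.Agent.H84.ND.Targets4

/-!
# MP_70ba79_ag, board `ndc_modules`, row SNX: singular points over extension fields
-/

set_option autoImplicit false

namespace Pool.Agent.H73.ND

open MvPolynomial SC Pool.Agent.H27.LV Pool.Agent.H84.SM Pool.Agent.H84.ND

theorem pf_SNX (hFSG : T_FSG) : T_SNX := by
  classical
  intro k _ _ _ G d hd hG hsq L _ _ a ha hpa
  obtain ⟨T, -, hT⟩ := hFSG k G d hd hG hsq
  obtain ⟨j, hj⟩ := Function.ne_iff.mp ha
  have hj' : a j ≠ 0 := hj
  set b : Fin 3 → L := fun i => (a j)⁻¹ * a i with hb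
  have hbj : b j = 1 := inv_mul_cancel₀ hj'
  have hpb : ∀ i, aeval b (pderiv i G) = 0 := fun i => by
    rw [hb, aeval_smul_hom (pderiv i G) (d - 1) hG.pderiv, hpa i, mul_zero]
  let S : Set (MvPolynomial (Fin 3) k) := {p | p = X j - 1 ∨ ∃ i, p = pderiv i G}
  let I : Ideal (MvPolynomial (Fin 3) k) := Ideal.span S
  -- the ideal vanishes at `b`
  have hIb : ∀ p ∈ I, aeval b p = 0 := by
    intro p hp
    have h1 : I ≤ RingHom.ker (aeval b : MvPolynomial (Fin 3) k →ₐ[k] L) := by
      refine Ideal.span_le.mpr ?_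
      rintro q (hq | ⟨i, hq⟩)
      · show aeval b q = 0
        rw [hq, map_sub, aeval_X, map_one, hbj, sub_self]
      · show aeval b q = 0
        rw [hq, hpb i]
    exact h1 hp
  -- the product over the singular points
  let q : Fin 3 → MvPolynomial (Fin 3) k := fun i => ∏ s ∈ T, (X i - C (s i / s j))
  have hq : ∀ i, aeval b (q i) = 0 := by
    intro i
    have h1 : q i ∈ vanishingIdeal k (zeroLocus k I) := by
      intro p hp
      have hpj : p j = 1 := by
        have h2 := hp (X j - 1) (Ideal.subset_span (Or.inl rfl))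
        rw [map_sub, aeval_X, map_one] at h2
        exact sub_eq_zero.mp h2
      have hps : Sing G p := by
        refine ⟨fun h0 => ?_, fun i => ?_⟩
        · rw [h0] at hpj; exact zero_ne_one hpj
        · have h2 := hp (pderiv i G) (Ideal.subset_span (Or.inr ⟨i, rfl⟩))
          have h3 : aeval p (pderiv i G) = eval p (pderiv i G) := rfl
          exact h3.symm.trans h2
      obtain ⟨s', hs', c, hc, hpc⟩ := hT p hps
      have h3 : c * s' j = 1 := by
        have h4 := congrFun hpc j
        rw [hpj] at h4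
        exact h4.symm
      have h5 : s' j ≠ 0 := right_ne_zero_of_mul_eq_one h3
      have h6 : c = (s' j)⁻¹ := eq_inv_of_mul_eq_one_left h3
      rw [map_prod]
      refine Finset.prod_eq_zero hs' ?_
      rw [map_sub, aeval_X, aeval_C, hpc]
      show c * s' i - s' i / s' j = 0
      rw [h6, div_eq_mul_inv, mul_comm, sub_self]
    rw [vanishingIdeal_zeroLocus_eq_radical] at h1
    obtain ⟨N, hN⟩ := h1
    have h7 := hIb _ hN
    rw [map_pow] at h7
    exact eq_zero_of_pow_eq_zero h7
  have hs : ∀ i, ∃ t : k, b i = algebraMap k L t := by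
    intro i
    have h1 := hq i
    rw [map_prod] at h1
    obtain ⟨s', -, h2⟩ := Finset.prod_eq_zero_iff.mp h1
    rw [map_sub, aeval_X, aeval_C] at h2
    exact ⟨s' i / s' j, sub_eq_zero.mp h2⟩
  choose s hs using hs
  have hbs : b = fun i => algebraMap k L (s i) := funext hs
  refine ⟨s, a j, ⟨?_, ?_⟩, hj', ?_⟩
  · intro h0
    have h1 := hs j
    rw [hbj, h0, Pi.zero_apply, map_zero] at h1
    exact one_ne_zero h1
  · intro i
    have h1 := hpb i
    rw [hbs] at h1
    have h2 : aeval (fun i => algebraMap k L (s i)) (pderiv i G) =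
        algebraMap k L (eval s (pderiv i G)) :=
      aeval_algebraMap_apply L s (pderiv i G)
    rw [h2] at h1
    exact (map_eq_zero _).mp h1
  · intro i
    rw [← hs i]
    show a i = a j * ((a j)⁻¹ * a i)
    rw [← mul_assoc, mul_inv_cancel₀ hj', one_mul]

end Pool.Agent.H73.ND
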